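import Pool.Agent.H48.M5.Defs
import Pool.Agent.H49.KJ.Typ
import Pool.Agent.H6.SLP.Grow
import Pool.Agent.H36.KBX.Coef

/-!
# Small gradients on grids
-/

set_option autoImplicit false

namespace Pool.Agent.H40.FR

open Finset MvPolynomial
open Pool.M5

/-- The exponent of the derivative of a monomial. -/
noncomputable def dex {n : ℕ} (al : Fin n → ℕ) (j : Fin n) : Fin n →₀ ℕ :=
  Finsupp.equivFunOnFinite.symm fun i => if i = j then al i - 1 else al i

/-- The derivative of a combination of monomials. -/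
noncomputable def dpol {n K : ℕ} (a : Mon n K → ℝ) (j : Fin n) : MvPolynomial (Fin n) ℝ :=
  ∑ s : Mon n K, monomial (dex (s : Fin n → ℕ) j) (a s * ((s : Fin n → ℕ) j : ℝ))

theorem eval_dpol {n K : ℕ} (a : Mon n K → ℝ) (j : Fin n) (x : Fin n → ℝ) :
    eval x (dpol a j) = ∑ s : Mon n K, a s * dmono (s : Fin n → ℕ) x j := by
  classical
  unfold dpol
  rw [map_sum]
  refine Finset.sum_congr rfl fun s _ => ?_
  rw [eval_monomial, Finsupp.prod_fintype _ _ (fun i => pow_zero _)]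
  have h1 : ∏ i, x i ^ (dex (s : Fin n → ℕ) j) i =
      x j ^ ((s : Fin n → ℕ) j - 1) * ∏ i ∈ univ.erase j, x i ^ (s : Fin n → ℕ) i := by
    rw [← Finset.mul_prod_erase univ _ (Finset.mem_univ j)]
    congr 1
    · show x j ^ (if j = j then (s : Fin n → ℕ) j - 1 else (s : Fin n → ℕ) j) = _
      rw [if_pos rfl]
    · refine Finset.prod_congr rfl fun i hi => ?_
      show x i ^ (if i = j then (s : Fin n → ℕ) i - 1 else (s : Fin n → ℕ) i) = _
      rw [if_neg (Finset.ne_of_mem_erase hi)]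
  rw [h1]
  unfold dmono
  ring

theorem totalDegree_dpol {n K : ℕ} (a : Mon n K → ℝ) (j : Fin n) :
    (dpol a j).totalDegree ≤ K := by
  unfold dpol
  refine totalDegree_finsetSum_le fun s _ => ?_
  refine (totalDegree_monomial_le _ _).trans ?_
  rw [Finsupp.sum_fintype _ _ (fun _ => rfl)]
  have h1 : ∑ i, (s : Fin n → ℕ) i ≤ K := (Finset.mem_filter.1 s.2).2.2
  refine le_trans (Finset.sum_le_sum fun i _ => ?_) h1
  show (if i = j then (s : Fin n → ℕ) i - 1 else (s : Fin n → ℕ) i) ≤ _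
  split_ifs <;> omega

theorem coeff_dpol {n K : ℕ} (a : Mon n K → ℝ) (j : Fin n) (s₀ : Mon n K)
    (h0 : 1 ≤ (s₀ : Fin n → ℕ) j) :
    coeff (dex (s₀ : Fin n → ℕ) j) (dpol a j) = a s₀ * ((s₀ : Fin n → ℕ) j : ℝ) := by
  classical
  unfold dpol
  rw [coeff_sum, Finset.sum_eq_single s₀]
  · rw [coeff_monomial, if_pos rfl]
  · intro s _ hs
    rw [coeff_monomial]
    split_ifs with h
    · by_cases h1 : 1 ≤ (s : Fin n → ℕ) j
      · exfalso
        apply hs
        apply Subtype.ext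
        funext i
        have h2 : dex (s : Fin n → ℕ) j i = dex (s₀ : Fin n → ℕ) j i := by rw [h]
        have h3 : (if i = j then (s : Fin n → ℕ) i - 1 else (s : Fin n → ℕ) i) =
          (if i = j then (s₀ : Fin n → ℕ) i - 1 else (s₀ : Fin n → ℕ) i) := h2
        by_cases hi : i = j
        · rw [if_pos hi, if_pos hi, hi] at h3
          rw [hi]
          omega
        · rw [if_neg hi, if_neg hi] at h3
          exact h3
      · have h2 : (s : Fin n → ℕ) j = 0 := by omega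
        rw [h2]
        simp
    · rfl
  · intro h
    exact absurd (Finset.mem_univ _) h

/-- **Small gradients on grids.** -/
theorem grid_grad : ∀ (n K : ℕ) (σ : ℝ), 0 < σ → ∃ (δ : ℝ) (M₀ : ℕ), 0 < δ ∧ ∀ M : ℕ, M₀ ≤ M →
    ∀ a : Mon n K → ℝ, 1 ≤ ‖a‖ →
      ((univ.filter fun c : Fin n → Fin M => ∀ j, |∑ s : Mon n K, a s *
        dmono (s : Fin n → ℕ) (fun i => ((c i : ℕ) : ℝ) / M) j| < δ).card : ℝ) ≤ σ * M ^ n := by
  classical
  intro n K σ hσ
  obtain ⟨C₁, hC₁, hco⟩ := Pool.Agent.H36.KBX.coef_bound n K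
  obtain ⟨C₂, hC₂, hgr⟩ := Pool.PB.grow n K
  obtain ⟨C₃, hC₃, hsl⟩ := Pool.KJ.Typ.grid_slv n K
  -- the lower bound of the sup norm on the unit cube
  obtain ⟨c, hc⟩ : ∃ c : ℝ, c = 1 / (2 * (C₁ + 1) * C₂ * 3 ^ K) := ⟨_, rfl⟩
  have hc0 : 0 < c := by rw [hc]; positivity
  have hsup : ∀ (a : Mon n K → ℝ), 1 ≤ ‖a‖ → ∃ j, ∃ y : Fin n → ℝ, (∀ i, 0 ≤ y i ∧ y i ≤ 1) ∧
      c ≤ |eval y (dpol a j)| := by
    intro a ha
    have h1 : ∃ s₀, 1 ≤ |a s₀| := by
      by_contra hcon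
      push Not at hcon
      have : ‖a‖ < 1 := by
        rw [pi_norm_lt_iff one_pos]
        intro s
        rw [Real.norm_eq_abs]
        exact hcon s
      linarith
    obtain ⟨s₀, hs₀⟩ := h1
    have h2 : ∃ j, 1 ≤ (s₀ : Fin n → ℕ) j := by
      by_contra hcon
      push Not at hcon
      have h3 : 1 ≤ ∑ i, (s₀ : Fin n → ℕ) i := (Finset.mem_filter.1 s₀.2).2.1
      have h4 : ∑ i, (s₀ : Fin n → ℕ) i = 0 := Finset.sum_eq_zero fun i _ => by
        have := hcon i
        omega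
      omega
    obtain ⟨j, hj⟩ := h2
    refine ⟨j, ?_⟩
    by_contra hcon
    push Not at hcon
    have h3 : ∀ b : Fin n → ℝ, (∀ i, |b i| ≤ 1) → |eval b (dpol a j)| ≤ C₂ * 3 ^ K * c := by
      intro b hb
      have h4 := hgr (dpol a j) c (1 / 2) 3 (fun _ => 1 / 2) (totalDegree_dpol a j)
        (by norm_num) (by norm_num) (by
          intro b hb
          refine (hcon b fun i => ?_).le
          have := abs_le.1 (hb i)
          constructor <;> linarith) b (fun i => by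
          have := abs_le.1 (hb i)
          rw [abs_le]
          constructor <;> linarith)
      exact h4
    have h4 := hco (dpol a j) _ (totalDegree_dpol a j) h3 (dex (s₀ : Fin n → ℕ) j)
    rw [coeff_dpol a j s₀ hj, abs_mul] at h4
    have h5 : (1 : ℝ) ≤ |((s₀ : Fin n → ℕ) j : ℝ)| := by
      rw [abs_of_nonneg (Nat.cast_nonneg _)]
      exact_mod_cast hj
    have h6 : 1 ≤ |a s₀| * |((s₀ : Fin n → ℕ) j : ℝ)| := by nlinarith
    have h7 : C₁ * (C₂ * 3 ^ K * c) ≤ 1 / 2 := by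
      have h8 : C₂ * 3 ^ K * c = 1 / (2 * (C₁ + 1)) := by
        rw [hc]
        have : C₂ ≠ 0 := by linarith
        field_simp
      rw [h8, mul_one_div, div_le_div_iff₀ (by linarith) (by norm_num)]
      linarith
    linarith
  -- the choice of theta
  obtain ⟨θ, hθ0, hθ1, hθ⟩ : ∃ θ : ℝ, 0 < θ ∧ θ ≤ 1 ∧
      C₃ * θ ^ ((1 : ℝ) / (K + 1)) ≤ σ / 2 := by
    have hx0 : 0 < min 1 (σ / (2 * C₃)) := lt_min one_pos (by positivity)
    refine ⟨(min 1 (σ / (2 * C₃))) ^ (K + 1), by positivity,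
      pow_le_one₀ hx0.le (min_le_left _ _), ?_⟩
    rw [← Real.rpow_natCast, ← Real.rpow_mul hx0.le]
    have h1 : (((K + 1 : ℕ) : ℝ)) * (1 / (K + 1)) = 1 := by
      push_cast
      field_simp
    rw [h1, Real.rpow_one]
    calc C₃ * min 1 (σ / (2 * C₃)) ≤ C₃ * (σ / (2 * C₃)) :=
          mul_le_mul_of_nonneg_left (min_le_right _ _) (by linarith)
      _ = σ / 2 := by
          field_simp
  obtain ⟨M₀, hM₀⟩ := exists_nat_ge (2 * C₃ / σ + 1)
  refine ⟨θ * c, M₀, by positivity, ?_⟩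
  intro M hM a ha
  have hM1 : (2 * C₃ / σ + 1 : ℝ) ≤ M := hM₀.trans (by exact_mod_cast hM)
  have hMpos : 1 ≤ M := by
    have h1 : (1 : ℝ) ≤ M := by
      have : 0 ≤ 2 * C₃ / σ := by positivity
      linarith
    exact_mod_cast h1
  have hMpos' : (0 : ℝ) < M := by exact_mod_cast hMpos
  obtain ⟨j, y, hy, hyc⟩ := hsup a ha
  have h1 := hsl (dpol a j) M θ c
    ((univ.filter fun c' : Fin n → Fin M => ∀ j, |∑ s : Mon n K, a s *
        dmono (s : Fin n → ℕ) (fun i => ((c' i : ℕ) : ℝ) / M) j| < θ * c).image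
      fun c' i => ((c' i : Fin M) : ℕ)) (totalDegree_dpol a j) hMpos hθ0 hθ1 hc0 ⟨y, hy, hyc⟩ (by
      intro u hu
      obtain ⟨c', hc', rfl⟩ := Finset.mem_image.1 hu
      refine ⟨fun i => (c' i).2, ?_⟩
      rw [eval_dpol]
      exact (Finset.mem_filter.1 hc').2 j)
  rw [Finset.card_image_of_injective] at h1
  · refine h1.trans ?_
    refine mul_le_mul_of_nonneg_right ?_ (by positivity)
    have h2 : C₃ * (1 / M) ≤ σ / 2 := by
      rw [mul_one_div, div_le_iff₀ hMpos']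
      have h3 : 2 * C₃ / σ ≤ M := by linarith
      rw [div_le_iff₀ hσ] at h3
      linarith
    have h3 : C₃ * (θ ^ ((1 : ℝ) / (K + 1)) + 1 / M) =
      C₃ * θ ^ ((1 : ℝ) / (K + 1)) + C₃ * (1 / M) := by ring
    rw [h3]
    linarith
  · intro c' c'' h
    funext i
    exact Fin.ext (congrFun h i)

end Pool.Agent.H40.FR
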