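import Pool.Agent.H33.KAL.RMG

/-!
# Small values of polynomials on grids

`grid_small`: for polynomials in `k` variables, of degree at most `K` in each variable, with a
coefficient of absolute value at least `σ`, the proportion of the points of the grid
`({0, …, N - 1} / N) ^ k` where `|P| < c ε ^ (k K) σ` is at most `ε + k (K + 1) / N`.
-/

set_option autoImplicit false

namespace Pool.Agent.H40.FR

open Finset

/-- The coefficients are bounded by the values on the unit interval. -/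
theorem unit_coef (D : ℕ) : ∃ C : ℝ, 1 ≤ C ∧ ∀ (q : Polynomial ℝ) (S : ℝ), q.natDegree ≤ D →
    (∀ t ∈ Set.Icc (0 : ℝ) 1, |q.eval t| ≤ S) → ∀ j, |q.coeff j| ≤ C * S := by
  classical
  set v : ℕ → ℝ := fun i => (i : ℝ) / (D + 1) with hv
  have hD : (0 : ℝ) < D + 1 := by positivity
  have hinj : Set.InjOn v (range (D + 1) : Finset ℕ) := by
    intro i _ k _ h
    have h1 : (i : ℝ) / (D + 1) = (k : ℝ) / (D + 1) := h
    field_simp at h1
    exact_mod_cast h1
  obtain ⟨M, hM⟩ : ∃ M : ℝ, M = ∑ i ∈ range (D + 1), ∑ j ∈ range (D + 1),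
      |(Lagrange.basis (range (D + 1)) v i).coeff j| := ⟨_, rfl⟩
  have hM0 : 0 ≤ M := by
    rw [hM]
    exact Finset.sum_nonneg fun i _ => Finset.sum_nonneg fun j _ => abs_nonneg _
  refine ⟨1 + M, by linarith, ?_⟩
  intro q S hq hS j
  have hS0 : 0 ≤ S := le_trans (abs_nonneg _) (hS 0 (by simp))
  by_cases hj : j ∈ range (D + 1)
  · have h1 : q = Lagrange.interpolate (range (D + 1)) v fun i => q.eval (v i) := by
      refine Lagrange.eq_interpolate hinj ?_
      rw [card_range]
      refine lt_of_le_of_lt (Polynomial.degree_le_natDegree) ?_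
      exact_mod_cast Nat.lt_succ_of_le hq
    have h2 : q.coeff j = ∑ i ∈ range (D + 1),
        q.eval (v i) * (Lagrange.basis (range (D + 1)) v i).coeff j := by
      conv_lhs => rw [h1]
      rw [Lagrange.interpolate_apply, Polynomial.finsetSum_coeff]
      refine Finset.sum_congr rfl fun i _ => ?_
      rw [Polynomial.coeff_C_mul]
    rw [h2]
    refine le_trans (Finset.abs_sum_le_sum_abs _ _) ?_
    have h3 : ∑ i ∈ range (D + 1),
        |q.eval (v i) * (Lagrange.basis (range (D + 1)) v i).coeff j| ≤ M * S := by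
      rw [hM, Finset.sum_mul]
      refine Finset.sum_le_sum fun i hi => ?_
      rw [abs_mul, mul_comm]
      refine mul_le_mul ?_ (hS _ ?_) (abs_nonneg _)
        (Finset.sum_nonneg fun j _ => abs_nonneg _)
      · exact Finset.single_le_sum
          (f := fun j => |(Lagrange.basis (range (D + 1)) v i).coeff j|)
          (fun j _ => abs_nonneg _) hj
      have hi' : (i : ℝ) ≤ D := by
        have := Finset.mem_range.1 hi
        exact_mod_cast Nat.le_of_lt_succ this
      refine ⟨by positivity, ?_⟩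
      show (i : ℝ) / (D + 1) ≤ 1
      rw [div_le_one hD]
      linarith
    refine h3.trans ?_
    nlinarith
  · have h1 : q.coeff j = 0 := by
      refine Polynomial.coeff_eq_zero_of_natDegree_lt ?_
      rw [mem_range] at hj
      omega
    rw [h1, abs_zero]
    positivity

/-- One variable. -/
theorem grid_one (K : ℕ) : ∃ c : ℝ, 0 < c ∧ c ≤ 1 ∧ ∀ (p : Polynomial ℝ) (σ ε : ℝ) (N j : ℕ),
    p.natDegree ≤ K → 0 < σ → 0 < ε → ε ≤ 1 → 1 ≤ N → σ ≤ |p.coeff j| →
    ((univ.filter fun x : Fin N => |p.eval (((x : ℕ) : ℝ) / N)| < c * ε ^ K * σ).card : ℝ) ≤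
      ε * N + (K + 1) := by
  classical
  obtain ⟨C, hC, hco⟩ := unit_coef K
  have hC0 : 0 < C := by linarith
  have hK1 : (0 : ℝ) < K + 1 := by positivity
  have hK1' : (1 : ℝ) ≤ K + 1 := by
    have : (0 : ℝ) ≤ K := Nat.cast_nonneg K
    linarith
  refine ⟨(2 * C * (K + 1) ^ (K + 1))⁻¹, by positivity, ?_, ?_⟩
  · refine inv_le_one_of_one_le₀ ?_
    exact one_le_mul_of_one_le_of_one_le (by linarith) (one_le_pow₀ hK1')
  intro p σ ε N j hp hσ hε hε1 hN hj
  have hN0 : (0 : ℝ) < N := by exact_mod_cast hN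
  by_contra hcon
  rw [not_le] at hcon
  obtain ⟨δ, hδ⟩ : ∃ δ : ℝ, δ = (2 * C * (K + 1) ^ (K + 1))⁻¹ * ε ^ K * σ := ⟨_, rfl⟩
  rw [← hδ] at hcon
  have hδ0 : 0 < δ := by rw [hδ]; positivity
  -- the set of the integers
  set F : Finset (Fin N) := univ.filter fun x : Fin N => |p.eval (((x : ℕ) : ℝ) / N)| < δ
  obtain ⟨E, hE⟩ : ∃ E : Finset ℤ, E = F.image (fun x : Fin N => ((x : ℕ) : ℤ)) := ⟨_, rfl⟩
  have hEc : E.card = F.card := by
    rw [hE]
    refine Finset.card_image_of_injective _ fun a b hab => ?_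
    have h1 : ((a : ℕ) : ℤ) = ((b : ℕ) : ℤ) := hab
    exact Fin.ext (by exact_mod_cast h1)
  obtain ⟨s, hs⟩ : ∃ s : ℕ, s = ⌈ε * N / (K + 1)⌉₊ := ⟨_, rfl⟩
  have hs1 : 1 ≤ s := by
    rw [hs]
    exact Nat.one_le_ceil_iff.2 (by positivity)
  have hsl : ε * N / (K + 1) ≤ s := by rw [hs]; exact Nat.le_ceil _
  have hsu : (s : ℝ) < ε * N / (K + 1) + 1 := by
    rw [hs]
    exact Nat.ceil_lt_add_one (by positivity)
  have hs0 : (0 : ℝ) < s := by exact_mod_cast hs1
  have hcard : s * K + 1 ≤ E.card := by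
    have h1 : ((s * K + 1 : ℕ) : ℝ) < (F.card : ℝ) + 1 := by
      push_cast
      have h2 : (s : ℝ) * K ≤ (ε * N / (K + 1) + 1) * K :=
        mul_le_mul_of_nonneg_right hsu.le (Nat.cast_nonneg K)
      have h3 : ε * N / (K + 1) * K ≤ ε * N := by
        rw [div_mul_eq_mul_div, div_le_iff₀ hK1]
        have : 0 ≤ ε * N := by positivity
        nlinarith
      linarith
    rw [hEc]
    have h2 : s * K + 1 < F.card + 1 := by exact_mod_cast h1
    omega
  -- Remez
  obtain ⟨P, hP⟩ : ∃ P : Polynomial ℝ, P = p.comp (Polynomial.C (1 / (N : ℝ)) * Polynomial.X) :=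
    ⟨_, rfl⟩
  have hPe : ∀ t, P.eval t = p.eval (t / N) := by
    intro t
    rw [hP, Polynomial.eval_comp]
    simp only [Polynomial.eval_mul, Polynomial.eval_C, Polynomial.eval_X]
    congr 1
    ring
  have hPd : P.natDegree ≤ K := by
    rw [hP]
    refine (Polynomial.natDegree_comp_le).trans ?_
    exact (Nat.mul_le_mul hp ((Polynomial.natDegree_C_mul_le _ _).trans
      Polynomial.natDegree_X_le)).trans (le_of_eq (mul_one K))
  have hval : ∀ t ∈ Set.Icc (0 : ℝ) 1, |p.eval t| ≤ (K + 1) * (N / s) ^ K * δ := by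
    intro t ht
    have h1 := Pool.KAL.rmg_thm K s P E (N * t) N δ hPd hs1 hcard (by
      intro e he
      rw [hE, Finset.mem_image] at he
      obtain ⟨x, _, rfl⟩ := he
      have hx : ((x : ℕ) : ℝ) ≤ N := by exact_mod_cast x.2.le
      have hx0 : (0 : ℝ) ≤ ((x : ℕ) : ℝ) := Nat.cast_nonneg _
      have h2 : (N : ℝ) * t ≤ N := by nlinarith [ht.2]
      have h3 : 0 ≤ (N : ℝ) * t := mul_nonneg hN0.le ht.1
      rw [abs_le]
      push_cast
      constructor <;> linarith) (by
      intro e he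
      rw [hE, Finset.mem_image] at he
      obtain ⟨x, hx, rfl⟩ := he
      rw [hPe]
      push_cast
      exact (Finset.mem_filter.1 hx).2.le)
    rw [hPe] at h1
    have h2 : (N : ℝ) * t / N = t := by field_simp
    rw [h2] at h1
    exact h1
  have h1 := hco p _ hp hval j
  have h2 : (N : ℝ) / s ≤ (K + 1) / ε := by
    rw [div_le_div_iff₀ hs0 hε]
    rw [div_le_iff₀ hK1] at hsl
    linarith
  have h3 : ((N : ℝ) / s) ^ K ≤ ((K + 1) / ε) ^ K := pow_le_pow_left₀ (by positivity) h2 K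
  have h4 : C * ((K + 1) * (N / s) ^ K * δ) ≤ C * ((K + 1) * ((K + 1) / ε) ^ K * δ) := by
    refine mul_le_mul_of_nonneg_left ?_ hC0.le
    refine mul_le_mul_of_nonneg_right ?_ hδ0.le
    exact mul_le_mul_of_nonneg_left h3 hK1.le
  have h5 : C * ((K + 1) * ((K + 1) / ε) ^ K * δ) = σ / 2 := by
    rw [hδ, div_pow, pow_succ]
    field_simp
  have h6 : |p.coeff j| ≤ σ / 2 := h1.trans (h4.trans h5.le)
  linarith

end Pool.Agent.H40.FR
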