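import Mathlib

/-!
# Prouhet, Thue and Morse

Lemma TM of `K_FR_helper44.md`. A polynomial `G = β + v + g`, `v` homogeneous of degree `i` and
`deg g < i`, is written as `β + v (· - s) + h`, `deg h < i`: then `h` carries the jet of order
`i - 1` of `G` at `s`, and passing from `s` to `s'` adds `v (· - s) - v (· - s')` to `h`. If one
goes through `2 ^ (i - 1)` equidistant points, the form being `v⁺` or `v⁻` according to the signs
of Thue and Morse, or according to the opposite signs, then the two results differ by a constant.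
-/

set_option autoImplicit false

namespace Pool.FR

open Finset Polynomial

/-- The signs of Thue and Morse, for `r < 2 ^ n`. -/
def sg : ℕ → ℕ → ℤ
  | 0, _ => 1
  | n + 1, r => if r < 2 ^ n then sg n r else -sg n (r - 2 ^ n)

theorem sg_cases (n r : ℕ) : sg n r = 1 ∨ sg n r = -1 := by
  induction n generalizing r with
  | zero => exact Or.inl rfl
  | succ n ih =>
    unfold sg
    split_ifs
    · exact ih r
    · rcases ih (r - 2 ^ n) with h | h
      · exact Or.inr (by rw [h])
      · exact Or.inl (by rw [h]; rfl)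

/-- The signed sum. -/
noncomputable def Dn (n : ℕ) (f : ℕ → ℝ) : ℝ := ∑ r ∈ range (2 ^ n), (sg n r : ℝ) * f r

theorem Dn_succ (n : ℕ) (f : ℕ → ℝ) :
    Dn (n + 1) f = Dn n fun r => f r - f (r + 2 ^ n) := by
  have h1 : Dn (n + 1) f = ∑ r ∈ range (2 ^ n), (sg (n + 1) r : ℝ) * f r +
      ∑ r ∈ range (2 ^ n), (sg (n + 1) (2 ^ n + r) : ℝ) * f (2 ^ n + r) := by
    unfold Dn
    rw [pow_succ, mul_two, Finset.sum_range_add]
  rw [h1]
  unfold Dn
  rw [← Finset.sum_add_distrib]
  refine Finset.sum_congr rfl fun r hr => ?_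
  have hr' : r < 2 ^ n := mem_range.1 hr
  have e1 : sg (n + 1) r = sg n r := by
    rw [sg, if_pos hr']
  have e2 : sg (n + 1) (2 ^ n + r) = -sg n r := by
    rw [sg, if_neg (by omega), Nat.add_sub_cancel_left]
  rw [e1, e2, add_comm (2 ^ n) r]
  push_cast
  ring

/-- The difference of a polynomial and its translate. -/
theorem diff_taylor (p : ℝ[X]) (n : ℕ) (hp : p.natDegree ≤ n + 1) (h : ℝ) :
    (p - Polynomial.taylor h p).natDegree ≤ n ∧
      (p - Polynomial.taylor h p).coeff n = -(n + 1) * h * p.coeff (n + 1) := by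
  have hc : ∀ m, n + 1 < m → p.coeff m = 0 := fun m hm =>
    Polynomial.coeff_eq_zero_of_natDegree_lt (by omega)
  have ht : (Polynomial.taylor h p).natDegree ≤ n + 1 := by
    rw [Polynomial.natDegree_taylor]
    exact hp
  have hd : ∀ m, n + 1 ≤ m + 1 → (Polynomial.hasseDeriv m p).eval h =
      p.coeff m + (m + 1) * h * p.coeff (m + 1) := by
    intro m hm
    rw [Polynomial.hasseDeriv_apply, Polynomial.sum_over_range' p _ (n + 2) (by omega)]
    · rw [Polynomial.eval_finsetSum]
      by_cases hmn : m = n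
      · subst hmn
        rw [Finset.sum_range_succ, Finset.sum_range_succ, Finset.sum_eq_zero]
        · rw [Polynomial.eval_monomial, Polynomial.eval_monomial, Nat.choose_self,
            Nat.choose_succ_self_right]
          simp
          ring
        · intro x hx
          rw [Nat.choose_eq_zero_of_lt (mem_range.1 hx)]
          simp
      · have hmn' : m = n + 1 ∨ n + 1 < m := by omega
        rcases hmn' with h1 | h1
        · rw [Finset.sum_range_succ, Finset.sum_eq_zero, hc (m + 1) (by omega), h1]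
          · simp
          · intro x hx
            rw [Nat.choose_eq_zero_of_lt (by have := mem_range.1 hx; omega)]
            simp
        · rw [Finset.sum_eq_zero, hc m h1, hc (m + 1) (by omega)]
          · simp
          · intro x hx
            rw [Nat.choose_eq_zero_of_lt (by have := mem_range.1 hx; omega)]
            simp
    · intro i
      simp
  constructor
  · rw [Polynomial.natDegree_le_iff_coeff_eq_zero]
    intro m hm
    rw [Polynomial.coeff_sub, Polynomial.taylor_coeff, hd m (by omega), hc (m + 1) (by omega)]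
    ring
  · rw [Polynomial.coeff_sub, Polynomial.taylor_coeff, hd n (by omega)]
    ring

/-- The signed sum of a polynomial of degree at most `n`. -/
theorem Dn_poly (n : ℕ) (p : ℝ[X]) (hp : p.natDegree ≤ n) :
    Dn n (fun r => p.eval (r : ℝ)) =
      (-1) ^ n * n.factorial * 2 ^ (n * (n - 1) / 2) * p.coeff n := by
  induction n generalizing p with
  | zero =>
    unfold Dn
    rw [Polynomial.eq_C_of_natDegree_le_zero hp]
    simp [sg]
  | succ n ih =>
    rw [Dn_succ]
    obtain ⟨h1, h2⟩ := diff_taylor p n hp (2 ^ n)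
    have h3 : (fun r : ℕ => p.eval (r : ℝ) - p.eval ((r + 2 ^ n : ℕ) : ℝ)) =
        fun r : ℕ => (p - Polynomial.taylor (2 ^ n : ℝ) p).eval (r : ℝ) := by
      funext r
      rw [Polynomial.eval_sub, Polynomial.taylor_eval]
      push_cast
      rfl
    rw [h3, ih _ h1, h2]
    have h4 : (n + 1) * (n + 1 - 1) / 2 = n + n * (n - 1) / 2 := by
      rcases n with _ | n
      · rfl
      · rw [Nat.add_sub_cancel, Nat.add_sub_cancel]
        have h5 : (n + 1 + 1) * (n + 1) = 2 * (n + 1) + (n + 1) * n := by ring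
        rw [h5, Nat.mul_add_div (by norm_num)]
    rw [h4, pow_add, Nat.factorial_succ, pow_succ]
    push_cast
    ring

/-- The restriction of a homogeneous polynomial to a line. -/
noncomputable def lp {k : ℕ} (w : MvPolynomial (Fin k) ℝ) (a b : Fin k → ℝ) : ℝ[X] :=
  MvPolynomial.aeval (fun l => Polynomial.C (a l) + Polynomial.C (b l) * Polynomial.X) w

theorem lp_eval {k : ℕ} (w : MvPolynomial (Fin k) ℝ) (a b : Fin k → ℝ) (t : ℝ) :
    (lp w a b).eval t = MvPolynomial.eval (fun l => a l + t * b l) w := by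
  unfold lp
  induction w using MvPolynomial.induction_on with
  | C r => simp
  | add p q hp hq => rw [map_add, Polynomial.eval_add, hp, hq, map_add]
  | mul_X p i hp =>
    rw [map_mul, Polynomial.eval_mul, hp, map_mul, MvPolynomial.aeval_X, MvPolynomial.eval_X]
    simp
    left
    ring

theorem lin_pow (a b : ℝ) (m : ℕ) :
    ((Polynomial.C a + Polynomial.C b * Polynomial.X : ℝ[X]) ^ m).natDegree ≤ m ∧
      ((Polynomial.C a + Polynomial.C b * Polynomial.X : ℝ[X]) ^ m).coeff m = b ^ m := by
  have h1 : (Polynomial.C a + Polynomial.C b * Polynomial.X : ℝ[X]).natDegree ≤ 1 := by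
    refine (Polynomial.natDegree_add_le _ _).trans (max_le (by simp) ?_)
    exact (Polynomial.natDegree_C_mul_le _ _).trans (by simp)
  have h2 : (Polynomial.C a + Polynomial.C b * Polynomial.X : ℝ[X]).coeff 1 = b := by
    rw [Polynomial.coeff_add, Polynomial.coeff_C, Polynomial.coeff_C_mul, Polynomial.coeff_X]
    simp
  constructor
  · refine Polynomial.natDegree_pow_le.trans ?_
    calc m * _ ≤ m * 1 := Nat.mul_le_mul_left _ h1
      _ = m := mul_one m
  · have h3 := Polynomial.coeff_pow_of_natDegree_le (m := m) h1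
    rw [mul_one, h2] at h3
    exact h3

theorem lin_prod {k : ℕ} (a b : Fin k → ℝ) (al : Fin k → ℕ) (s : Finset (Fin k)) :
    (∏ l ∈ s, (Polynomial.C (a l) + Polynomial.C (b l) * Polynomial.X : ℝ[X]) ^ al l).natDegree ≤
        ∑ l ∈ s, al l ∧
      (∏ l ∈ s, (Polynomial.C (a l) + Polynomial.C (b l) * Polynomial.X : ℝ[X]) ^ al l).coeff
        (∑ l ∈ s, al l) = ∏ l ∈ s, b l ^ al l := by
  induction s using Finset.induction_on with
  | empty => simp
  | insert l s hl ih =>
    rw [Finset.prod_insert hl, Finset.sum_insert hl, Finset.prod_insert hl]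
    obtain ⟨h1, h2⟩ := lin_pow (a l) (b l) (al l)
    constructor
    · exact (Polynomial.natDegree_mul_le).trans (add_le_add h1 ih.1)
    · rw [Polynomial.coeff_mul_add_eq_of_natDegree_le h1 ih.1, h2, ih.2]

theorem lp_hom {k i : ℕ} {w : MvPolynomial (Fin k) ℝ} (hw : w.IsHomogeneous i)
    (a b : Fin k → ℝ) :
    (lp w a b).natDegree ≤ i ∧ (lp w a b).coeff i = MvPolynomial.eval b w := by
  have h1 : lp w a b = ∑ al ∈ w.support, Polynomial.C (w.coeff al) *
      ∏ l, (Polynomial.C (a l) + Polynomial.C (b l) * Polynomial.X) ^ al l := by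
    unfold lp
    rw [MvPolynomial.aeval_def, MvPolynomial.eval₂_eq']
    rfl
  have h2 : ∀ al ∈ w.support, ∑ l, al l = i := by
    intro al hal
    have h3 := hw (MvPolynomial.mem_support_iff.1 hal)
    rw [← h3, Finsupp.weight_apply, Finsupp.sum_fintype _ _ (fun _ => by simp)]
    simp
  constructor
  · rw [h1]
    refine Polynomial.natDegree_sum_le_of_forall_le _ _ fun al hal => ?_
    refine (Polynomial.natDegree_C_mul_le _ _).trans ?_
    rw [← h2 al hal]
    exact (lin_prod a b al Finset.univ).1
  · rw [h1, Polynomial.finsetSum_coeff, MvPolynomial.eval_eq']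
    refine Finset.sum_congr rfl fun al hal => ?_
    rw [Polynomial.coeff_C_mul]
    congr 1
    have h3 := (lin_prod a b al Finset.univ).2
    rw [h2 al hal] at h3
    exact h3

theorem eval_smul_hom {k i : ℕ} {w : MvPolynomial (Fin k) ℝ} (hw : w.IsHomogeneous i) (c : ℝ)
    (e : Fin k → ℝ) :
    MvPolynomial.eval (fun l => c * e l) w = c ^ i * MvPolynomial.eval e w := by
  rw [MvPolynomial.eval_eq', MvPolynomial.eval_eq', Finset.mul_sum]
  refine Finset.sum_congr rfl fun al hal => ?_
  have h3 := hw (MvPolynomial.mem_support_iff.1 hal)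
  rw [Finsupp.weight_apply, Finsupp.sum_fintype _ _ (fun _ => by simp)] at h3
  have h4 : ∑ l, al l = i := by simpa using h3
  have h5 : ∏ l, (c * e l) ^ al l = c ^ i * ∏ l, e l ^ al l := by
    rw [← h4, ← Finset.prod_pow_eq_pow_sum, ← Finset.prod_mul_distrib]
    exact Finset.prod_congr rfl fun l _ => mul_pow _ _ _
  rw [h5]
  ring

/-- The constant of Lemma TM. -/
def tmc (n : ℕ) : ℕ := (n + 1).factorial * 2 ^ (n * (n - 1) / 2)

theorem tmc_pos (n : ℕ) : 0 < tmc n := by
  unfold tmc
  positivity

/-- **Lemma TM**, analytic form: `w = v⁺ - v⁻` is homogeneous of degree `n + 1`. -/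
theorem tm_sum {k n : ℕ} {w : MvPolynomial (Fin k) ℝ} (hw : w.IsHomogeneous (n + 1))
    (y s e : Fin k → ℝ) (δ : ℝ) :
    ∑ r ∈ range (2 ^ n), (sg n r : ℝ) *
      (MvPolynomial.eval (fun l => y l - (s l + r * δ * e l)) w -
        MvPolynomial.eval (fun l => y l - (s l + (r + 1) * δ * e l)) w) =
      tmc n * δ ^ (n + 1) * MvPolynomial.eval e w := by
  set g : ℝ[X] := lp w (fun l => y l - s l) (fun l => (-δ) * e l) with hg
  obtain ⟨h1, h2⟩ := lp_hom hw (fun l => y l - s l) (fun l => (-δ) * e l)
  rw [← hg] at h1 h2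
  rw [eval_smul_hom hw] at h2
  obtain ⟨h3, h4⟩ := diff_taylor g n h1 1
  have h5 : ∀ r : ℕ, MvPolynomial.eval (fun l => y l - (s l + r * δ * e l)) w -
      MvPolynomial.eval (fun l => y l - (s l + (r + 1) * δ * e l)) w =
      (g - Polynomial.taylor 1 g).eval (r : ℝ) := by
    intro r
    rw [Polynomial.eval_sub, Polynomial.taylor_eval, hg, lp_eval, lp_eval]
    have e1 : (fun l => y l - (s l + r * δ * e l)) =
        fun l => y l - s l + r * (-δ * e l) := by
      funext l
      ring
    have e2 : (fun l => y l - (s l + (r + 1) * δ * e l)) =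
        fun l => y l - s l + (r + 1) * (-δ * e l) := by
      funext l
      ring
    rw [e1, e2]
  have h6 : ∑ r ∈ range (2 ^ n), (sg n r : ℝ) *
      (MvPolynomial.eval (fun l => y l - (s l + r * δ * e l)) w -
        MvPolynomial.eval (fun l => y l - (s l + (r + 1) * δ * e l)) w) =
      Dn n fun r => (g - Polynomial.taylor 1 g).eval (r : ℝ) := by
    unfold Dn
    exact Finset.sum_congr rfl fun r _ => by rw [h5]
  rw [h6, Dn_poly n _ h3, h4, h2]
  unfold tmc
  rw [Nat.factorial_succ, neg_pow δ]
  have h7 : ((-1 : ℝ)) ^ n * (-1) ^ n = 1 := by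
    rw [← mul_pow]; norm_num
  have h8 : ((-1 : ℝ)) ^ (n + 1) = -(-1) ^ n := by rw [pow_succ]; ring
  rw [h8]
  push_cast
  linear_combination ((n : ℝ) + 1) * n.factorial * 2 ^ (n * (n - 1) / 2) * δ ^ (n + 1) *
    (MvPolynomial.eval e w) * h7

/-- The form used in the step number `r`. -/
noncomputable def vs {k : ℕ} (n : ℕ) (vp vm : MvPolynomial (Fin k) ℝ) (r : ℕ) :
    MvPolynomial (Fin k) ℝ := if sg n r = 1 then vp else vm

/-- The effect of the step from `a` to `b` with the form `v`, at `y`. -/
noncomputable def stp {k : ℕ} (v : MvPolynomial (Fin k) ℝ) (a b y : Fin k → ℝ) : ℝ :=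
  MvPolynomial.eval (fun l => y l - a l) v - MvPolynomial.eval (fun l => y l - b l) v

/-- The points of the path. -/
noncomputable def pth {k : ℕ} (s e : Fin k → ℝ) (δ : ℝ) (r : ℕ) : Fin k → ℝ :=
  fun l => s l + r * δ * e l

/-- **Lemma TM.** The compositions along the path with the forms `vs n vp vm` and `vs n vm vp`
differ by a constant. -/
theorem tm {k n : ℕ} {vp vm : MvPolynomial (Fin k) ℝ} (hp : vp.IsHomogeneous (n + 1))
    (hm : vm.IsHomogeneous (n + 1)) (y s e : Fin k → ℝ) (δ : ℝ) :
    ∑ r ∈ range (2 ^ n), stp (vs n vp vm r) (pth s e δ r) (pth s e δ (r + 1)) y -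
      ∑ r ∈ range (2 ^ n), stp (vs n vm vp r) (pth s e δ r) (pth s e δ (r + 1)) y =
      tmc n * δ ^ (n + 1) * (MvPolynomial.eval e vp - MvPolynomial.eval e vm) := by
  have hw : (vp - vm).IsHomogeneous (n + 1) := by
    rw [sub_eq_add_neg]
    refine hp.add ?_
    rw [← neg_one_smul ℝ vm, MvPolynomial.smul_eq_C_mul]
    have := (MvPolynomial.isHomogeneous_C (Fin k) (-1 : ℝ)).mul hm
    rwa [zero_add] at this
  rw [← map_sub, ← tm_sum hw y s e δ, ← Finset.sum_sub_distrib]
  refine Finset.sum_congr rfl fun r _ => ?_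
  unfold stp vs pth
  rcases sg_cases n r with h | h
  · rw [h, if_pos rfl, if_pos rfl, map_sub, map_sub]
    push_cast
    ring
  · rw [h, if_neg (by decide), if_neg (by decide), map_sub, map_sub]
    push_cast
    ring

end Pool.FR
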